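import Pool.Agent.Lib.MP_c356f3_al.BorFin

/-!
# Groups with exactly one irreducible representation in each dimension: stabilisers of lines and
vectors
-/

namespace Pool.Agent.Results.MP_c356f3_al.BorelCriterion

open Matrix Pool.Agent.Lib.MP_c356f3_al

universe u

/-- Let `G` have property (U) and let `ρ : G → GL(2,ℂ)` be irreducible.  Then `SL(2,ℚ)` is a
quotient of `G` if and only if some `ρ(g)`, `ρ(h)` do not commute but have a common eigenvector
(the stabiliser in `ρ(G)` of some line is not abelian), and if and only if the stabiliser in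
`ρ(G)` of some nonzero vector is not cyclic. -/
theorem result (G : Type u) [Group G] (hU : PropU G) (ρ : G →* GL (Fin 2) ℂ) (hρ : Irr ρ) :
    ((∃ (N : Subgroup G) (_ : N.Normal), Nonempty (G ⧸ N ≃* SpecialLinearGroup (Fin 2) ℚ)) ↔
      ∃ g h : G, ρ g * ρ h ≠ ρ h * ρ g ∧ ∃ (v : Fin 2 → ℂ) (α β : ℂ), v ≠ 0 ∧
        (ρ g).val *ᵥ v = α • v ∧ (ρ h).val *ᵥ v = β • v) ∧
    ((∃ (N : Subgroup G) (_ : N.Normal), Nonempty (G ⧸ N ≃* SpecialLinearGroup (Fin 2) ℚ)) ↔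
      ∃ v : Fin 2 → ℂ, v ≠ 0 ∧ ∀ g₀ : G, (ρ g₀).val *ᵥ v = v →
        ∃ g : G, (ρ g).val *ᵥ v = v ∧ ∀ n : ℤ, ρ g ≠ ρ g₀ ^ n) :=
  Bor.final hU ρ hρ

end Pool.Agent.Results.MP_c356f3_al.BorelCriterion
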