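import Pool.Agent.Lib.MP_c356f3_al.DenFin

/-!
# Groups with exactly one irreducible representation in each dimension: density at every prime
-/

namespace Pool.Agent.Results.MP_c356f3_al.PadicDensity

open Matrix Pool.Agent.Lib.MP_c356f3_al

universe u

/-- Let `G` have property (U).  There is a nontrivial homomorphism `f` from `G` to `SL(2,ℚ)` such
that for every prime `p` the image of `f` is dense in `SL(2,ℚ_p)`, and every nontrivial
homomorphism from the abstract group `G` to `SL(2,ℚ_p)` has dense image and is conjugate to `f` by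
an element of `GL(2,ℚ_p)`. -/
theorem result (G : Type u) [Group G] (hU : PropU G) :
    ∃ f : G →* SpecialLinearGroup (Fin 2) ℚ, f ≠ 1 ∧ ∀ (p : ℕ) [Fact p.Prime],
      (DenseRange fun g : G => SpecialLinearGroup.map (algebraMap ℚ ℚ_[p]) (f g)) ∧
      ∀ F : G →* SpecialLinearGroup (Fin 2) ℚ_[p], F ≠ 1 → DenseRange F ∧
        ∃ P : GL (Fin 2) ℚ_[p], ∀ g, (F g).val =
          P.val * (f g).val.map (algebraMap ℚ ℚ_[p]) * P⁻¹.val :=
  Den.final hU

end Pool.Agent.Results.MP_c356f3_al.PadicDensity
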