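import Pool.Agent.Lib.MP_c356f3_al.Final

/-!
# Springer's question is a question about the subgroups of `SL(2,ℚ)`
-/

namespace Pool.Agent.Results.MP_c356f3_al.Reduction

open Matrix Pool.Agent.Lib.MP_c356f3_al

universe u

/-- Every group with property (U) has a quotient isomorphic to `SL(2,ℚ)` if and only if no proper
subgroup of `SL(2,ℚ)` has property (U). -/
theorem result :
    (∀ (G : Type u) [Group G], PropU G → ∃ (N : Subgroup G) (_ : N.Normal),
        Nonempty (G ⧸ N ≃* SpecialLinearGroup (Fin 2) ℚ)) ↔
      ∀ Γ : Subgroup (SpecialLinearGroup (Fin 2) ℚ), PropU Γ → Γ = ⊤ :=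
  reduction_final

end Pool.Agent.Results.MP_c356f3_al.Reduction
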