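import Pool.Agent.Lib.MP_c356f3_al.Final

/-!
# Structure of the groups with exactly one irreducible representation in each dimension
-/

namespace Pool.Agent.Results.MP_c356f3_al.Structure

open Matrix Pool.Agent.Lib.MP_c356f3_al

universe u

/-- Let `G` have property (U).  Then there is a homomorphism `φ : G → SL(2,ℚ)` such that the
irreducible representations of `G` of dimension `m + 1` are exactly the conjugates of
`Sym^m ∘ φ`, the image of `φ` has property (U), `G` has no proper subgroup of finite index, every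
prime divides the denominator of the trace of some element of `φ(G)`, and the following are
equivalent: `SL(2,ℚ)` is a quotient of `G`; `φ` is onto; `φ(G) ∩ SL(2,ℤ)` is infinite and finitely
generated. -/
theorem result (G : Type u) [Group G] (hU : PropU G) :
    ∃ φ : G →* SpecialLinearGroup (Fin 2) ℚ,
      (∀ (m : ℕ) (ρ : G →* GL (Fin (m + 1)) ℂ), Irr ρ ↔
        ∃ P : GL (Fin (m + 1)) ℂ, ∀ g : G, (ρ g).val =
          P.val * symMat m ((φ g).val.map (algebraMap ℚ ℂ)) * P⁻¹.val) ∧
      PropU φ.range ∧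
      (∀ H : Subgroup G, H.FiniteIndex → H = ⊤) ∧
      (∀ p : ℕ, p.Prime → ∃ g : G, 1 < padicNorm p (φ g).val.trace) ∧
      ((∃ (N : Subgroup G) (_ : N.Normal), Nonempty (G ⧸ N ≃* SpecialLinearGroup (Fin 2) ℚ)) ↔
        Function.Surjective φ) ∧
      (Function.Surjective φ ↔
        Infinite (φ.range.comap (SpecialLinearGroup.map (Int.castRingHom ℚ) :
          SpecialLinearGroup (Fin 2) ℤ →* SpecialLinearGroup (Fin 2) ℚ)) ∧
        (φ.range.comap (SpecialLinearGroup.map (Int.castRingHom ℚ) :
          SpecialLinearGroup (Fin 2) ℤ →* SpecialLinearGroup (Fin 2) ℚ)).FG) := by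
  obtain ⟨φ, h1, h2, h3, h4, h5, h6⟩ := structure_final hU
  refine ⟨φ, h1, h2, h3, h4, ?_, h6⟩
  rw [← h5]
  constructor
  · rintro ⟨N, hN, ⟨e⟩⟩
    exact ⟨e.toMonoidHom.comp (QuotientGroup.mk' N),
      e.surjective.comp (QuotientGroup.mk'_surjective N)⟩
  · rintro ⟨f, hf⟩
    exact ⟨f.ker, inferInstance, ⟨QuotientGroup.quotientKerEquivOfSurjective f hf⟩⟩

end Pool.Agent.Results.MP_c356f3_al.Structure
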